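import Pool.Agent.H894R3.SB.Stmts

set_option autoImplicit false

/-!
Task Abel of project H894-SB: Abel summation and the Cauchy inequality.
-/

open Filter Finset

namespace Pool.Agent.H894R3.SB.AbelH343

open Pool.Agent.H894R3.SB

theorem abel_id (D w : ℕ → ℝ) (m : ℕ) :
    ∑ j ∈ Icc 1 m, D j * w j = ∑ J ∈ Icc 1 m, (∑ j ∈ Icc 1 J, D j) * (w J - w (J + 1)) +
      (∑ j ∈ Icc 1 m, D j) * w (m + 1) := by
  induction m with
  | zero => simp
  | succ m ih =>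
    rw [sum_Icc_succ_top (by omega), sum_Icc_succ_top (by omega) (fun J =>
      (∑ j ∈ Icc 1 J, D j) * (w J - w (J + 1))), ih, sum_Icc_succ_top (by omega) D]
    ring

theorem bern (J : ℕ) (hJ : 1 ≤ J) (b : ℝ) (hb0 : 0 ≤ b) (hb1 : b ≤ 1) :
    b / 2 * (1 / (J : ℝ)) ≤
      (J : ℝ) ^ b * ((J : ℝ) ^ (-b) - ((J + 1 : ℕ) : ℝ) ^ (-b)) := by
  have hJ1 : (1 : ℝ) ≤ J := by exact_mod_cast hJ
  have hJ0 : (0 : ℝ) < J := by linarith
  have hJ2 : (0 : ℝ) < (J : ℝ) + 1 := by linarith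
  push_cast
  have e1 : (J : ℝ) ^ b * (J : ℝ) ^ (-b) = 1 := by
    rw [← Real.rpow_add hJ0]
    simp
  have e2 : (J : ℝ) ^ b * ((J : ℝ) + 1) ^ (-b) = (1 + -(1 / ((J : ℝ) + 1))) ^ b := by
    rw [Real.rpow_neg hJ2.le, ← div_eq_mul_inv, ← Real.div_rpow hJ0.le hJ2.le]
    congr 1
    field_simp
    ring
  have h1 : -1 ≤ -(1 / ((J : ℝ) + 1)) := by
    rw [neg_le_neg_iff, div_le_one hJ2]
    linarith
  have e3 := rpow_one_add_le_one_add_mul_self h1 hb0 hb1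
  rw [mul_sub, e1, e2]
  have h2 : b / 2 * (1 / (J : ℝ)) ≤ b * (1 / ((J : ℝ) + 1)) := by
    have : 1 / (J : ℝ) ≤ 2 * (1 / ((J : ℝ) + 1)) := by
      rw [mul_one_div, div_le_div_iff₀ hJ0 hJ2]
      linarith
    have := mul_le_mul_of_nonneg_left this (by linarith : 0 ≤ b / 2)
    linarith
  linarith

theorem taskAbel : TaskAbel := by
  intro α hα0 hα1 M D a K ha hK hD hS hQ
  set b : ℝ := (1 - α) / 2 with hb
  have hb0 : 0 ≤ b := by
    rw [hb]; linarith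
  have hb1 : b ≤ 1 := by
    rw [hb]; linarith
  set H : ℝ := ∑ j ∈ Icc 1 M, 1 / (j : ℝ) with hH
  have hH0 : 0 ≤ H := sum_nonneg fun j _ => by positivity
  set T : ℝ := ∑ j ∈ Icc 1 M, D j * (j : ℝ) ^ (-b) with hT
  -- lower bound for T
  have hlow : a * (b / 2) * H ≤ T := by
    rw [hT, abel_id D (fun j => (j : ℝ) ^ (-b)) M, hH, mul_sum]
    have h1 : ∀ J ∈ Icc 1 M, a * (b / 2) * (1 / (J : ℝ)) ≤
        (∑ j ∈ Icc 1 J, D j) * ((J : ℝ) ^ (-b) - ((J + 1 : ℕ) : ℝ) ^ (-b)) := by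
      intro J hJ
      rw [mem_Icc] at hJ
      have hJ1 : (1 : ℝ) ≤ J := by exact_mod_cast hJ.1
      have hJ0 : (0 : ℝ) < J := by linarith
      have g1 := bern J hJ.1 b hb0 hb1
      have g2 : 0 ≤ (J : ℝ) ^ (-b) - ((J + 1 : ℕ) : ℝ) ^ (-b) := by
        rw [sub_nonneg]
        exact Real.rpow_le_rpow_of_nonpos hJ0 (by push_cast; linarith) (by linarith)
      calc a * (b / 2) * (1 / (J : ℝ)) = a * (b / 2 * (1 / (J : ℝ))) := by ring
        _ ≤ a * ((J : ℝ) ^ b * ((J : ℝ) ^ (-b) - ((J + 1 : ℕ) : ℝ) ^ (-b))) :=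
            mul_le_mul_of_nonneg_left g1 ha.le
        _ = (a * (J : ℝ) ^ b) * ((J : ℝ) ^ (-b) - ((J + 1 : ℕ) : ℝ) ^ (-b)) := by ring
        _ ≤ _ := mul_le_mul_of_nonneg_right (hS J hJ.1 hJ.2) g2
    have h2 := sum_le_sum h1
    have h3 : 0 ≤ (∑ j ∈ Icc 1 M, D j) * ((M + 1 : ℕ) : ℝ) ^ (-b) :=
      mul_nonneg (sum_nonneg fun j _ => hD j) (by positivity)
    linarith
  -- Cauchy
  have hcs : T ^ 2 ≤ K * H := by
    have c1 := sum_mul_sq_le_sq_mul_sq (Icc 1 M) (fun j => D j * (j : ℝ) ^ (α / 2))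
      (fun j => (j : ℝ) ^ (-(1 / 2) : ℝ))
    have c2 : ∑ j ∈ Icc 1 M, D j * (j : ℝ) ^ (α / 2) * (j : ℝ) ^ (-(1 / 2) : ℝ) = T := by
      rw [hT]
      refine sum_congr rfl fun j hj => ?_
      rw [mem_Icc] at hj
      have hj0 : (0 : ℝ) < j := by exact_mod_cast hj.1
      rw [mul_assoc, ← Real.rpow_add hj0]
      congr 2
      rw [hb]; ring
    have c3 : ∑ j ∈ Icc 1 M, (D j * (j : ℝ) ^ (α / 2)) ^ 2 = ∑ j ∈ Icc 1 M, D j ^ 2 * (j : ℝ) ^ α := by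
      refine sum_congr rfl fun j hj => ?_
      rw [mul_pow]
      congr 1
      rw [← Real.rpow_natCast, ← Real.rpow_mul (Nat.cast_nonneg j)]
      congr 1
      push_cast
      ring
    have c4 : ∑ j ∈ Icc 1 M, ((j : ℝ) ^ (-(1 / 2) : ℝ)) ^ 2 = H := by
      rw [hH]
      refine sum_congr rfl fun j hj => ?_
      rw [← Real.rpow_natCast, ← Real.rpow_mul (Nat.cast_nonneg j)]
      have : (-(1 / 2) : ℝ) * ((2 : ℕ) : ℝ) = -1 := by norm_num
      rw [this, Real.rpow_neg_one, one_div]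
    rw [c2, c3, c4] at c1
    exact c1.trans (mul_le_mul_of_nonneg_right hQ hH0)
  have e0 : a * ((1 - α) / 4) = a * (b / 2) := by
    rw [hb]; ring
  rw [e0]
  rcases hH0.eq_or_lt with h | h
  · rw [← h, mul_zero]
    exact hK
  · have h4 : (a * (b / 2) * H) ^ 2 ≤ K * H := by
      refine le_trans ?_ hcs
      exact pow_le_pow_left₀ (by positivity) hlow 2
    have h5 : ((a * (b / 2)) ^ 2 * H) * H ≤ K * H := by
      calc ((a * (b / 2)) ^ 2 * H) * H = (a * (b / 2) * H) ^ 2 := by ring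
        _ ≤ _ := h4
    exact le_of_mul_le_mul_right h5 h

end Pool.Agent.H894R3.SB.AbelH343
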