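import Pool.Agent.H894R3.SB.Stmts

set_option autoImplicit false

/-!
Conversion from families to multisets (project H894-SB, task Conv).
-/

namespace Pool.Agent.H894R3.SB

theorem exists_family (h : ℕ) (X : Multiset ℕ) (hX : X.card = h) :
    ∃ x : Fin h → ℕ, Multiset.map x Finset.univ.val = X := by
  induction X using Quotient.inductionOn with
  | _ l =>
    have hl : l.length = h := by simpa using hX
    subst hl
    refine ⟨fun i => l.get i, ?_⟩
    have : (List.ofFn fun i => l.get i) = l := List.ofFn_get l
    rw [Fin.univ_val_map]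
    exact congrArg _ this

theorem taskConv : TaskConv := by
  intro α h S hS X Y hX hY hXS hYS hne z hz
  obtain ⟨x, rfl⟩ := exists_family h X hX
  obtain ⟨y, rfl⟩ := exists_family h Y hY
  have hx : ∀ i, x i ∈ S := fun i => hXS _ (Multiset.mem_map_of_mem _ (Finset.mem_univ i))
  have hy : ∀ i, y i ∈ S := fun i => hYS _ (Multiset.mem_map_of_mem _ (Finset.mem_univ i))
  have hsup : Finset.univ.sup x ≠ Finset.univ.sup y := hne
  have hsum : ∀ w : Fin h → ℕ, (Multiset.map w Finset.univ.val).sum = ∑ j, w j := fun w => rfl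
  rw [hsum, hsum]
  rcases Multiset.mem_add.1 hz with hz | hz
  · obtain ⟨i, -, rfl⟩ := Multiset.mem_map.1 hz
    exact (hS x y hx hy hsup i).1
  · obtain ⟨i, -, rfl⟩ := Multiset.mem_map.1 hz
    exact (hS x y hx hy hsup i).2

end Pool.Agent.H894R3.SB
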