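import Pool.Agent.H894R3.SB.Stmts

set_option autoImplicit false

open Filter Finset

namespace Pool.Agent.H894R3.SB

theorem count391_cnt (S : Set ℕ) (a b : ℕ) : cnt S b ≤ cnt S a + (SI S a b).card := by
  classical
  unfold cnt
  refine le_trans (Finset.card_le_card ?_) (Finset.card_union_le _ _)
  intro x hx
  simp only [SI, Finset.mem_filter, Finset.mem_Ioc, Finset.mem_union] at hx ⊢
  obtain ⟨⟨h0, hb⟩, hS⟩ := hx
  by_cases h : x ≤ a
  · exact Or.inl ⟨⟨h0, h⟩, hS⟩
  · exact Or.inr ⟨⟨by omega, hb⟩, hS⟩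

theorem taskCount : TaskCount := by
  classical
  intro S k q l J hk hq hl hJ
  have h1 : cnt S (J * (q * l)) - cnt S (J * l) ≤ (SI S (J * l) (J * (q * l))).card := by
    have := count391_cnt S (J * l) (J * (q * l))
    omega
  refine le_trans (Nat.choose_le_choose k h1) ?_
  rw [← Finset.card_powersetCard]
  refine le_trans (Finset.card_le_card ?_) (Finset.card_biUnion_le (s := Finset.Icc 1 J)
    (t := fun j => AJ S k q l j))
  intro P hP
  rw [Finset.mem_powersetCard] at hP
  obtain ⟨hPU, hPc⟩ := hP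
  have hL : 0 < k * q * l := by positivity
  have hx : ∀ x ∈ P, J * l < x ∧ x ≤ J * (q * l) ∧ x ∈ S := by
    intro x hx
    have := hPU hx
    simp only [SI, Finset.mem_filter, Finset.mem_Ioc] at this
    exact ⟨this.1.1, this.1.2, this.2⟩
  have hne : P.Nonempty := by
    rw [← Finset.card_pos]; omega
  obtain ⟨x0, hx0⟩ := hne
  have hs0 : 0 < ∑ x ∈ P, x := by
    have h2 : x0 ≤ ∑ x ∈ P, x := Finset.single_le_sum (f := fun x => x) (fun _ _ => Nat.zero_le _) hx0
    have := (hx x0 hx0).1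
    omega
  have hs1 : ∑ x ∈ P, x ≤ J * (k * q * l) := by
    calc ∑ x ∈ P, x ≤ ∑ _x ∈ P, J * (q * l) := Finset.sum_le_sum fun x h => (hx x h).2.1
      _ = k * (J * (q * l)) := by rw [Finset.sum_const, hPc, smul_eq_mul]
      _ = J * (k * q * l) := by ring
  set s := ∑ x ∈ P, x with hs
  set L := k * q * l with hLdef
  have hd1 : (s - 1) / L * L ≤ s - 1 := Nat.div_mul_le_self _ _
  have hd2 : s - 1 < ((s - 1) / L + 1) * L := by
    have := Nat.lt_div_mul_add (a := s - 1) hL
    calc s - 1 < (s - 1) / L * L + L := this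
      _ = ((s - 1) / L + 1) * L := by ring
  have hjJ : (s - 1) / L + 1 ≤ J := by
    have : (s - 1) / L < J := by
      rw [Nat.div_lt_iff_lt_mul hL]
      omega
    omega
  rw [Finset.mem_biUnion]
  have hlow : (s - 1) / L * L < s := lt_of_le_of_lt hd1 (Nat.sub_lt hs0 Nat.one_pos)
  have hup : s ≤ ((s - 1) / L + 1) * L := by
    have : s = (s - 1) + 1 := by omega
    rw [this]
    exact hd2
  refine ⟨(s - 1) / L + 1, Finset.mem_Icc.mpr ⟨Nat.le_add_left 1 _, hjJ⟩, ?_⟩
  simp only [AJ, Finset.mem_filter, Finset.mem_powersetCard]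
  rw [← hLdef, ← hs]
  refine ⟨⟨?_, hPc⟩, ?_, ?_⟩
  · intro x hxP
    simp only [SI, Finset.mem_filter, Finset.mem_Ioc]
    have h3 := hx x hxP
    refine ⟨⟨?_, ?_⟩, h3.2.2⟩
    · exact lt_of_le_of_lt (Nat.mul_le_mul_right l hjJ) h3.1
    · have h2 : x ≤ s := Finset.single_le_sum (f := fun x => x) (fun _ _ => Nat.zero_le _) hxP
      exact le_trans h2 hup
  · rw [Nat.add_sub_cancel]
    exact hlow
  · exact hup

end Pool.Agent.H894R3.SB
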