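import Pool.Agent.H894R3.SB.Stmts

set_option autoImplicit false

/-!
Strong `B_h` sets: assembly.
-/

open Filter Finset

namespace Pool.Agent.H894R3.SB

theorem mem_SI {S : Set ℕ} {a b x : ℕ} : x ∈ SI S a b ↔ (a < x ∧ x ≤ b) ∧ x ∈ S := by
  simp [SI]

theorem mem_AJ {S : Set ℕ} {k q l j : ℕ} {P : Finset ℕ} (h : P ∈ AJ S k q l j) :
    P.card = k ∧ (∀ x ∈ P, (j * l < x ∧ x ≤ j * (k * q * l)) ∧ x ∈ S) ∧
      (j - 1) * (k * q * l) < ∑ x ∈ P, x ∧ ∑ x ∈ P, x ≤ j * (k * q * l) := by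
  unfold AJ at h
  rw [mem_filter, mem_powersetCard] at h
  obtain ⟨⟨h1, h2⟩, h3, h4⟩ := h
  exact ⟨h2, fun x hx => mem_SI.1 (h1 hx), h3, h4⟩

theorem mem_FP {A : Finset (Finset ℕ)} {p : Finset ℕ × Finset ℕ} (h : p ∈ FP A) :
    p.1 ∈ A ∧ p.2 ∈ A ∧ Disjoint p.1 p.2 ∧ ∑ x ∈ p.2, x ≤ ∑ x ∈ p.1, x := by
  unfold FP at h
  rw [mem_filter, mem_product] at h
  exact ⟨h.1.1, h.1.2, h.2.1, h.2.2⟩

theorem lemA (hPack : TaskPack) (α : ℝ) (k : ℕ) (S : Set ℕ) (hα : 0 ≤ α) (hk : 1 ≤ k)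
    (hS : StrongB α (2 * k) S) (q l M : ℕ)
    (hR : (((M * l : ℕ) : ℝ)) ^ α ≤ ((k * q * l : ℕ) : ℝ)) :
    ∑ j ∈ Finset.Icc 1 M, ((FP (AJ S k q l j)).card : ℝ) * ((j * l : ℕ) : ℝ) ^ α ≤
      2 * ((k * q * l : ℕ) : ℝ) := by
  have h := hPack α k S hα hk hS (Σ _ : ℕ, Finset ℕ × Finset ℕ)
    ((Finset.Icc 1 M).sigma (fun j => FP (AJ S k q l j))) (fun i => i.2.1) (fun i => i.2.2)
    (fun i => i.1 * l) ((k * q * l : ℕ) : ℝ) ((k * q * l : ℕ) : ℝ) (by positivity) (by positivity)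
    ?_ ?_
  · rw [Finset.sum_sigma] at h
    calc ∑ j ∈ Finset.Icc 1 M, ((FP (AJ S k q l j)).card : ℝ) * ((j * l : ℕ) : ℝ) ^ α
        = ∑ j ∈ Finset.Icc 1 M, ∑ _p ∈ FP (AJ S k q l j), ((j * l : ℕ) : ℝ) ^ α := by
          refine Finset.sum_congr rfl fun j _ => ?_
          rw [Finset.sum_const, nsmul_eq_mul]
      _ ≤ ((k * q * l : ℕ) : ℝ) + ((k * q * l : ℕ) : ℝ) := h
      _ = 2 * ((k * q * l : ℕ) : ℝ) := by ring
  · rintro ⟨j, p⟩ hi ⟨j', p'⟩ hi' hne heq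
    apply hne
    rw [Finset.mem_sigma] at hi hi'
    simp only [Prod.mk.injEq] at heq
    have hp : p = p' := Prod.ext heq.1 heq.2
    subst hp
    have e1 := mem_AJ (mem_FP hi.2).1
    have e2 := mem_AJ (mem_FP hi'.2).1
    have j1 := (Finset.mem_Icc.1 hi.1).1
    have j2 := (Finset.mem_Icc.1 hi'.1).1
    simp only at e1 e2 j1 j2
    have a1 : (j - 1) * (k * q * l) < j' * (k * q * l) := lt_of_lt_of_le e1.2.2.1 e2.2.2.2
    have a2 : (j' - 1) * (k * q * l) < j * (k * q * l) := lt_of_lt_of_le e2.2.2.1 e1.2.2.2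
    have b1 := lt_of_mul_lt_mul_right a1 (Nat.zero_le _)
    have b2 := lt_of_mul_lt_mul_right a2 (Nat.zero_le _)
    have : j = j' := by omega
    subst this
    rfl
  · rintro ⟨j, p⟩ hi
    rw [Finset.mem_sigma] at hi
    have j1 := Finset.mem_Icc.1 hi.1
    simp only at j1
    obtain ⟨f1, f2, f3, f4⟩ := mem_FP hi.2
    simp only at f1 f2 f3 f4
    have e1 := mem_AJ f1
    have e2 := mem_AJ f2
    refine ⟨e1.1, e2.1, f3, ?_, f4, ?_, ?_⟩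
    · intro x hx
      rw [Finset.mem_union] at hx
      rcases hx with hx | hx
      · exact ⟨(e1.2.1 x hx).2, (e1.2.1 x hx).1.1.le⟩
      · exact ⟨(e2.2.1 x hx).2, (e2.2.1 x hx).1.1.le⟩
    · have g1 : ∑ x ∈ p.1, x ≤ j * (k * q * l) := e1.2.2.2
      have g2 : (j - 1) * (k * q * l) < ∑ x ∈ p.2, x := e2.2.2.1
      have g3 : j * (k * q * l) = (j - 1) * (k * q * l) + k * q * l := by
        obtain ⟨i, rfl⟩ := Nat.exists_eq_add_of_le j1.1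
        simp only [Nat.add_sub_cancel_left]
        ring
      have g4 : ∑ x ∈ p.1, x ≤ ∑ x ∈ p.2, x + k * q * l := by omega
      have g5 : ((∑ x ∈ p.1, x : ℕ) : ℝ) ≤ ((∑ x ∈ p.2, x : ℕ) : ℝ) + ((k * q * l : ℕ) : ℝ) := by
        exact_mod_cast g4
      simp only
      linarith
    · refine le_trans ?_ hR
      apply Real.rpow_le_rpow (by positivity) _ hα
      exact_mod_cast Nat.mul_le_mul_right l j1.2

theorem lemB (hPairs : TaskPairs) (k : ℕ) (S : Set ℕ) (hk : 1 ≤ k) (q l M j : ℕ) (hj : j ≤ M) :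
    ((AJ S k q l j).card : ℝ) ^ 2 ≤ 2 * ((FP (AJ S k q l j)).card : ℝ) +
      (cnt S (M * (k * q * l)) : ℝ) ^ (2 * k - 1) := by
  have h := hPairs k (SI S 0 (M * (k * q * l))) (AJ S k q l j) hk ?_
  · unfold cnt
    exact_mod_cast h
  · intro P hP
    have e := mem_AJ hP
    refine ⟨e.1, fun x hx => ?_⟩
    rw [mem_SI]
    have h1 := (e.2.1 x hx).1
    refine ⟨⟨lt_of_le_of_lt (Nat.zero_le _) h1.1, h1.2.trans (Nat.mul_le_mul_right _ hj)⟩,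
      (e.2.1 x hx).2⟩

theorem lemC (hPack : TaskPack) (hPairs : TaskPairs) (α : ℝ) (k : ℕ) (S : Set ℕ) (hα : 0 ≤ α)
    (hk : 1 ≤ k) (hS : StrongB α (2 * k) S) (q l M : ℕ) (hl : 1 ≤ l)
    (hR : (((M * l : ℕ) : ℝ)) ^ α ≤ ((k * q * l : ℕ) : ℝ))
    (hT : (M : ℝ) * (M : ℝ) ^ α * (cnt S (M * (k * q * l)) : ℝ) ^ (2 * k - 1) ≤
      (l : ℝ) ^ (1 - α)) :
    ∑ j ∈ Finset.Icc 1 M, ((AJ S k q l j).card : ℝ) ^ 2 * (j : ℝ) ^ α ≤
      (4 * k * q + 1) * (l : ℝ) ^ (1 - α) := by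
  have hl0 : (0 : ℝ) < l := by exact_mod_cast hl
  have hA := lemA hPack α k S hα hk hS q l M hR
  have hla : (0 : ℝ) < (l : ℝ) ^ α := Real.rpow_pos_of_pos hl0 α
  have hll : (l : ℝ) ^ (1 - α) * (l : ℝ) ^ α = l := by
    rw [← Real.rpow_add hl0]
    simp
  have hA' : ∑ j ∈ Finset.Icc 1 M, ((FP (AJ S k q l j)).card : ℝ) * (j : ℝ) ^ α ≤
      2 * (k * q) * (l : ℝ) ^ (1 - α) := by
    have e : ∑ j ∈ Finset.Icc 1 M, ((FP (AJ S k q l j)).card : ℝ) * ((j * l : ℕ) : ℝ) ^ α =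
        (∑ j ∈ Finset.Icc 1 M, ((FP (AJ S k q l j)).card : ℝ) * (j : ℝ) ^ α) * (l : ℝ) ^ α := by
      rw [Finset.sum_mul]
      refine Finset.sum_congr rfl fun j _ => ?_
      rw [Nat.cast_mul, Real.mul_rpow (by positivity) (by positivity)]
      ring
    rw [e] at hA
    have e2 : 2 * ((k * q * l : ℕ) : ℝ) = (2 * (k * q) * (l : ℝ) ^ (1 - α)) * (l : ℝ) ^ α := by
      rw [mul_assoc (2 * ((k : ℝ) * q)), hll]
      push_cast
      ring
    rw [e2] at hA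
    exact le_of_mul_le_mul_right hA hla
  have hB : ∀ j ∈ Finset.Icc 1 M, ((AJ S k q l j).card : ℝ) ^ 2 * (j : ℝ) ^ α ≤
      2 * (((FP (AJ S k q l j)).card : ℝ) * (j : ℝ) ^ α) +
        (M : ℝ) ^ α * (cnt S (M * (k * q * l)) : ℝ) ^ (2 * k - 1) := by
    intro j hj
    have hj' := Finset.mem_Icc.1 hj
    have h1 := lemB hPairs k S hk q l M j hj'.2
    have h2 : (0 : ℝ) ≤ (j : ℝ) ^ α := by positivity
    have h3 : (j : ℝ) ^ α ≤ (M : ℝ) ^ α :=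
      Real.rpow_le_rpow (by positivity) (by exact_mod_cast hj'.2) hα
    have h4 : (0 : ℝ) ≤ (cnt S (M * (k * q * l)) : ℝ) ^ (2 * k - 1) := by positivity
    calc ((AJ S k q l j).card : ℝ) ^ 2 * (j : ℝ) ^ α ≤
        (2 * ((FP (AJ S k q l j)).card : ℝ) +
          (cnt S (M * (k * q * l)) : ℝ) ^ (2 * k - 1)) * (j : ℝ) ^ α :=
          mul_le_mul_of_nonneg_right h1 h2
      _ = 2 * (((FP (AJ S k q l j)).card : ℝ) * (j : ℝ) ^ α) +
          (j : ℝ) ^ α * (cnt S (M * (k * q * l)) : ℝ) ^ (2 * k - 1) := by ring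
      _ ≤ _ := by
          have := mul_le_mul_of_nonneg_right h3 h4
          linarith
  calc ∑ j ∈ Finset.Icc 1 M, ((AJ S k q l j).card : ℝ) ^ 2 * (j : ℝ) ^ α
      ≤ ∑ j ∈ Finset.Icc 1 M, (2 * (((FP (AJ S k q l j)).card : ℝ) * (j : ℝ) ^ α) +
        (M : ℝ) ^ α * (cnt S (M * (k * q * l)) : ℝ) ^ (2 * k - 1)) := Finset.sum_le_sum hB
    _ = 2 * (∑ j ∈ Finset.Icc 1 M, ((FP (AJ S k q l j)).card : ℝ) * (j : ℝ) ^ α) +
        (M : ℝ) * (M : ℝ) ^ α * (cnt S (M * (k * q * l)) : ℝ) ^ (2 * k - 1) := by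
        rw [Finset.sum_add_distrib, ← Finset.mul_sum, Finset.sum_const, Nat.card_Icc, nsmul_eq_mul]
        simp only [Nat.add_sub_cancel]
        ring
    _ ≤ 2 * (2 * (k * q) * (l : ℝ) ^ (1 - α)) + (l : ℝ) ^ (1 - α) := by linarith
    _ = (4 * k * q + 1) * (l : ℝ) ^ (1 - α) := by ring

theorem lemD (hCount : TaskCount) (k : ℕ) (S : Set ℕ) (hk : 1 ≤ k) (β c C : ℝ)
    (q l n0 : ℕ) (hq : 1 ≤ q) (hl : 1 ≤ l) (hln : n0 ≤ l)
    (hlow : ∀ n, n0 ≤ n → c * (n : ℝ) ^ β ≤ cnt S n)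
    (hup : ∀ n : ℕ, (cnt S n : ℝ) ≤ C * (n : ℝ) ^ β)
    (hq2 : C + 1 ≤ c * (q : ℝ) ^ β) (hβ0 : 0 < β) (hl2 : (2 * k : ℝ) ≤ (l : ℝ) ^ β)
    (J : ℕ) (hJ : 1 ≤ J) :
    (1 / (2 ^ k * (k.factorial : ℝ))) * ((l : ℝ) ^ β) ^ k * ((J : ℝ) ^ β) ^ k ≤
      ∑ j ∈ Finset.Icc 1 J, ((AJ S k q l j).card : ℝ) := by
  have h := hCount S k q l J hk hq hl hJ
  set u : ℕ := cnt S (J * (q * l)) - cnt S (J * l) with hu
  have hJ0 : (0 : ℝ) < J := by exact_mod_cast hJ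
  have hl0 : (0 : ℝ) < l := by exact_mod_cast hl
  have h1 : c * ((J * (q * l) : ℕ) : ℝ) ^ β ≤ cnt S (J * (q * l)) := by
    apply hlow
    calc n0 ≤ l := hln
      _ ≤ q * l := Nat.le_mul_of_pos_left _ hq
      _ ≤ J * (q * l) := Nat.le_mul_of_pos_left _ hJ
  have h2 : (cnt S (J * l) : ℝ) ≤ C * ((J * l : ℕ) : ℝ) ^ β := hup _
  have e1 : ((J * (q * l) : ℕ) : ℝ) ^ β = (q : ℝ) ^ β * ((J : ℝ) ^ β * (l : ℝ) ^ β) := by
    push_cast
    rw [Real.mul_rpow (by positivity) (by positivity), Real.mul_rpow (by positivity) (by positivity)]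
    ring
  have e2 : ((J * l : ℕ) : ℝ) ^ β = (J : ℝ) ^ β * (l : ℝ) ^ β := by
    push_cast
    rw [Real.mul_rpow (by positivity) (by positivity)]
  rw [e1] at h1
  rw [e2] at h2
  have hv : (0 : ℝ) ≤ (J : ℝ) ^ β * (l : ℝ) ^ β := by positivity
  have h3 : (cnt S (J * l) : ℝ) + (J : ℝ) ^ β * (l : ℝ) ^ β ≤ cnt S (J * (q * l)) := by
    have := mul_le_mul_of_nonneg_right hq2 hv
    nlinarith
  have h4 : (J : ℝ) ^ β * (l : ℝ) ^ β ≤ (u : ℝ) := by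
    have h5 : cnt S (J * l) ≤ cnt S (J * (q * l)) := by
      have : (cnt S (J * l) : ℝ) ≤ cnt S (J * (q * l)) := by linarith
      exact_mod_cast this
    rw [hu, Nat.cast_sub h5]
    linarith
  clear_value u
  have hJ1 : (1 : ℝ) ≤ (J : ℝ) ^ β := Real.one_le_rpow (by exact_mod_cast hJ) hβ0.le
  have h6 : (2 * k : ℝ) ≤ u := by
    have h7 : (l : ℝ) ^ β ≤ (J : ℝ) ^ β * (l : ℝ) ^ β := le_mul_of_one_le_left (by positivity) hJ1
    linarith
  have h6' : 2 * k ≤ u := by exact_mod_cast h6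
  have h8 : ((u + 1 - k : ℕ) : ℝ) ^ k / (k.factorial : ℝ) ≤ (u.choose k : ℝ) :=
    Nat.pow_le_choose k u
  have h9 : (u : ℝ) / 2 ≤ ((u + 1 - k : ℕ) : ℝ) := by
    rw [Nat.cast_sub (by omega)]
    push_cast
    linarith
  have hf : (0 : ℝ) < (k.factorial : ℝ) := by positivity
  calc (1 / (2 ^ k * (k.factorial : ℝ))) * ((l : ℝ) ^ β) ^ k * ((J : ℝ) ^ β) ^ k
      = ((((J : ℝ) ^ β * (l : ℝ) ^ β)) / 2) ^ k / (k.factorial : ℝ) := by
        rw [div_pow, mul_pow]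
        field_simp
    _ ≤ ((u + 1 - k : ℕ) : ℝ) ^ k / (k.factorial : ℝ) := by
        apply div_le_div_of_nonneg_right _ hf.le
        apply pow_le_pow_left₀ (by positivity)
        linarith
    _ ≤ (u.choose k : ℝ) := h8
    _ ≤ _ := by exact_mod_cast h

theorem core (hPack : TaskPack) (hPairs : TaskPairs) (hUpper : TaskUpper) (hCount : TaskCount)
    (hAbel : TaskAbel) (α : ℝ) (k : ℕ) (S : Set ℕ) (hα : 0 ≤ α) (hα1 : α < 1) (hk : 1 ≤ k)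
    (hS : StrongB α (2 * k) S) (c : ℝ) (hc : 0 < c) :
    ∃ᶠ n : ℕ in atTop, (cnt S n : ℝ) < c * (n : ℝ) ^ ((1 - α) / (2 * k)) := by
  by_contra hcon
  rw [not_frequently] at hcon
  obtain ⟨n0, hn0⟩ := eventually_atTop.1 hcon
  have hlow : ∀ n, n0 ≤ n → c * (n : ℝ) ^ ((1 - α) / (2 * k)) ≤ cnt S n :=
    fun n hn => not_lt.1 (hn0 n hn)
  obtain ⟨C, hC, hup⟩ := hUpper hPack hPairs α k S hα hα1 hk hS
  set β : ℝ := (1 - α) / (2 * k) with hβ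
  have hk0 : (0 : ℝ) < k := by exact_mod_cast hk
  have hα2 : 0 < 1 - α := by linarith
  have hβ0 : 0 < β := by positivity
  have hβk : β * k = (1 - α) / 2 := by
    rw [hβ]
    field_simp
  have hβ2k : β * (2 * k : ℕ) = 1 - α := by
    rw [hβ]
    push_cast
    field_simp
  have hT : Tendsto (fun n : ℕ => (n : ℝ) ^ β) atTop atTop :=
    (tendsto_rpow_atTop hβ0).comp tendsto_natCast_atTop_atTop
  obtain ⟨q, hq1, hq⟩ := ((eventually_ge_atTop 1).and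
    (hT.eventually_ge_atTop ((C + 1) / c))).exists
  have hq2 : C + 1 ≤ c * (q : ℝ) ^ β := by
    rw [div_le_iff₀ hc] at hq
    linarith
  set K0 : ℝ := 4 * k * q + 1 with hK0
  set a0 : ℝ := 1 / (2 ^ k * (k.factorial : ℝ)) with ha0
  have ha0p : 0 < a0 := by positivity
  set w : ℝ := (a0 * ((1 - α) / 4)) ^ 2 with hw
  have hwp : 0 < w := by positivity
  obtain ⟨M, hM⟩ := (Real.tendsto_sum_range_one_div_nat_succ_atTop.eventually_gt_atTop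
    (K0 / w)).exists
  have hHM : ∑ j ∈ Finset.Icc 1 M, 1 / (j : ℝ) = ∑ i ∈ Finset.range M, 1 / ((i : ℝ) + 1) := by
    have e : Finset.Icc 1 M = (Finset.range M).image (fun i => i + 1) := by
      ext x
      simp only [Finset.mem_Icc, Finset.mem_image, Finset.mem_range]
      constructor
      · rintro ⟨h1, h2⟩
        exact ⟨x - 1, by omega, by omega⟩
      · rintro ⟨i, h1, rfl⟩
        omega
    rw [e, Finset.sum_image (by intro a _ b _ h; simpa using h)]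
    refine Finset.sum_congr rfl fun i _ => ?_
    push_cast
    rfl
  set Y : ℝ := (C * ((M * (k * q) : ℕ) : ℝ) ^ β) with hY
  have hY0 : 0 ≤ Y := by positivity
  obtain ⟨l, hl⟩ := ((((eventually_ge_atTop 1).and (eventually_ge_atTop n0)).and
    (hT.eventually_ge_atTop (2 * k : ℝ))).and
    ((hT.eventually_ge_atTop ((M : ℝ) ^ α)).and
      (hT.eventually_ge_atTop ((M : ℝ) * (M : ℝ) ^ α * Y ^ (2 * k - 1))))).exists
  obtain ⟨⟨⟨hl1, hln⟩, hl2⟩, hl3, hl4⟩ := hl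
  have hl0 : (0 : ℝ) < l := by exact_mod_cast hl1
  have hlβ : (1 : ℝ) ≤ (l : ℝ) ^ β := Real.one_le_rpow (by exact_mod_cast hl1) hβ0.le
  have hl1a : (l : ℝ) ^ (1 - α) = ((l : ℝ) ^ β) ^ (2 * k) := by
    rw [← Real.rpow_natCast, ← Real.rpow_mul hl0.le, hβ2k]
  have hl1b : (l : ℝ) ^ ((1 - α) / 2) = ((l : ℝ) ^ β) ^ k := by
    rw [← Real.rpow_natCast, ← Real.rpow_mul hl0.le, hβk]
  have hle : (l : ℝ) ^ β ≤ (l : ℝ) ^ (1 - α) := by
    rw [hl1a]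
    exact le_self_pow₀ hlβ (by omega)
  have hR : (((M * l : ℕ) : ℝ)) ^ α ≤ ((k * q * l : ℕ) : ℝ) := by
    rw [Nat.cast_mul, Real.mul_rpow (by positivity) (by positivity)]
    have h1 : (M : ℝ) ^ α ≤ (l : ℝ) ^ (1 - α) := hl3.trans hle
    have h2 : (l : ℝ) ^ (1 - α) * (l : ℝ) ^ α = l := by
      rw [← Real.rpow_add hl0]
      simp
    calc (M : ℝ) ^ α * (l : ℝ) ^ α ≤ (l : ℝ) ^ (1 - α) * (l : ℝ) ^ α :=
          mul_le_mul_of_nonneg_right h1 (by positivity)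
      _ = l := h2
      _ ≤ ((k * q * l : ℕ) : ℝ) := by
          exact_mod_cast Nat.le_mul_of_pos_left l (Nat.mul_pos hk hq1)
  have hTT : (M : ℝ) * (M : ℝ) ^ α * (cnt S (M * (k * q * l)) : ℝ) ^ (2 * k - 1) ≤
      (l : ℝ) ^ (1 - α) := by
    have h1 : (cnt S (M * (k * q * l)) : ℝ) ≤ Y * (l : ℝ) ^ β := by
      refine (hup _).trans (le_of_eq ?_)
      have e : ((M * (k * q * l) : ℕ) : ℝ) = ((M * (k * q) : ℕ) : ℝ) * (l : ℝ) := by
        push_cast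
        ring
      rw [e, Real.mul_rpow (by positivity) (by positivity), hY]
      ring
    have h2 : (cnt S (M * (k * q * l)) : ℝ) ^ (2 * k - 1) ≤
        Y ^ (2 * k - 1) * ((l : ℝ) ^ β) ^ (2 * k - 1) := by
      rw [← mul_pow]
      exact pow_le_pow_left₀ (by positivity) h1 _
    have h3 : (0 : ℝ) ≤ (M : ℝ) * (M : ℝ) ^ α := by positivity
    calc (M : ℝ) * (M : ℝ) ^ α * (cnt S (M * (k * q * l)) : ℝ) ^ (2 * k - 1)
        ≤ (M : ℝ) * (M : ℝ) ^ α * (Y ^ (2 * k - 1) * ((l : ℝ) ^ β) ^ (2 * k - 1)) :=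
          mul_le_mul_of_nonneg_left h2 h3
      _ = ((M : ℝ) * (M : ℝ) ^ α * Y ^ (2 * k - 1)) * ((l : ℝ) ^ β) ^ (2 * k - 1) := by ring
      _ ≤ (l : ℝ) ^ β * ((l : ℝ) ^ β) ^ (2 * k - 1) :=
          mul_le_mul_of_nonneg_right hl4 (by positivity)
      _ = (l : ℝ) ^ (1 - α) := by
          rw [hl1a, ← pow_succ']
          congr 1
          omega
  have hCC := lemC hPack hPairs α k S hα hk hS q l M hl1 hR hTT
  have hfin := hAbel α hα hα1 M (fun j => ((AJ S k q l j).card : ℝ))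
    (a0 * (l : ℝ) ^ ((1 - α) / 2)) (K0 * (l : ℝ) ^ (1 - α)) (by positivity) (by positivity)
    (fun j => by positivity) ?_ hCC
  · rw [hHM] at hfin
    have e1 : (a0 * (l : ℝ) ^ ((1 - α) / 2) * ((1 - α) / 4)) ^ 2 = w * (l : ℝ) ^ (1 - α) := by
      rw [hw, hl1a, hl1b]
      ring
    rw [e1] at hfin
    rw [div_lt_iff₀ hwp] at hM
    have hlp : (0 : ℝ) < (l : ℝ) ^ (1 - α) := by positivity
    have := mul_lt_mul_of_pos_right hM hlp
    nlinarith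
  · intro J hJ1 hJM
    have h := lemD hCount k S hk β c C q l n0 hq1 hl1 hln hlow hup hq2 hβ0 hl2 J hJ1
    have e2 : (J : ℝ) ^ ((1 - α) / 2) = ((J : ℝ) ^ β) ^ k := by
      rw [← Real.rpow_natCast, ← Real.rpow_mul (by positivity), hβk]
    rw [hl1b, e2]
    exact h

theorem liminf_zero (f : ℕ → ℝ) (h0 : ∀ n, 0 ≤ f n) (h : ∀ c : ℝ, 0 < c → ∃ᶠ n in atTop, f n ≤ c) :
    liminf f atTop = 0 := by
  have hcob : IsCoboundedUnder (· ≥ ·) atTop f :=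
    IsCoboundedUnder.of_frequently_le (h 1 one_pos)
  have hbdd : IsBoundedUnder (· ≥ ·) atTop f := isBoundedUnder_of ⟨0, h0⟩
  apply le_antisymm
  · apply le_of_forall_pos_le_add
    intro c hc
    rw [zero_add]
    exact liminf_le_of_frequently_le (h c hc) hbdd
  · exact le_liminf_of_le hcob (Eventually.of_forall h0)

theorem final (hConv : TaskConv) (hPack : TaskPack) (hPairs : TaskPairs) (hUpper : TaskUpper)
    (hCount : TaskCount) (hAbel : TaskAbel) (α : ℝ) (hα : 0 ≤ α) (hα1 : α < 1) (h : ℕ)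
    (hh : 1 ≤ h) (he : Even h) (S : Set ℕ) (hS : StrongBh α h S) :
    liminf (fun n : ℕ => (cnt S n : ℝ) / (n : ℝ) ^ ((1 - α) / (h : ℝ))) atTop = 0 := by
  obtain ⟨k, hk⟩ := he
  have hk2 : h = 2 * k := by omega
  subst hk2
  have hk1 : 1 ≤ k := by omega
  apply liminf_zero
  · intro n
    positivity
  · intro c hc
    have h1 := core hPack hPairs hUpper hCount hAbel α k S hα hα1 hk1 (hConv α (2 * k) S hS) c hc
    refine (h1.and_eventually (eventually_ge_atTop 1)).mono ?_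
    rintro n ⟨h2, h3⟩
    have hn : (0 : ℝ) < n := by exact_mod_cast h3
    have e : ((2 * k : ℕ) : ℝ) = 2 * (k : ℝ) := by push_cast; ring
    rw [e, div_le_iff₀ (Real.rpow_pos_of_pos hn _)]
    exact h2.le

end Pool.Agent.H894R3.SB
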