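import Pool.Agent.H894R3.SB.Stmts

set_option autoImplicit false

open Filter Finset

namespace Pool.Agent.H894R3.SB

theorem Pack_sup_mem (s : Multiset ℕ) (hs : s ≠ 0) : s.sup ∈ s := by
  induction s using Multiset.induction_on with
  | empty => exact absurd rfl hs
  | cons a s ih =>
    rw [Multiset.sup_cons]
    by_cases h : s = 0
    · subst h; simp
    · rcases le_total a s.sup with h1 | h1
      · rw [sup_eq_right.2 h1]; exact Multiset.mem_cons_of_mem (ih h)
      · rw [sup_eq_left.2 h1]; exact Multiset.mem_cons_self _ _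

theorem Pack_core {α : ℝ} {k : ℕ} {S : Set ℕ} (hS : StrongB α (2 * k) S)
    (X Y : Multiset ℕ) (hX : X.card = 2 * k) (hY : Y.card = 2 * k) (hXS : ∀ x ∈ X, x ∈ S)
    (hYS : ∀ y ∈ Y, y ∈ S) (z : ℕ) (hz : z ∈ (X - Y) + (Y - X)) :
    (z : ℝ) ^ α ≤ |((X.sum : ℕ) : ℝ) - ((Y.sum : ℕ) : ℝ)| := by
  have e1 : X - Y + X ∩ Y = X := Multiset.sub_add_inter X Y
  have e2 : Y - X + X ∩ Y = Y := by rw [Multiset.inter_comm]; exact Multiset.sub_add_inter Y X
  have c1 := congrArg Multiset.card e1
  have c2 := congrArg Multiset.card e2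
  rw [Multiset.card_add] at c1 c2
  have s1 := congrArg Multiset.sum e1
  have s2 := congrArg Multiset.sum e2
  rw [Multiset.sum_add] at s1 s2
  have hne : X - Y ≠ 0 ∧ Y - X ≠ 0 := by
    rcases Multiset.mem_add.1 hz with h | h
    · have h1 : 0 < (X - Y).card := Multiset.card_pos_iff_exists_mem.2 ⟨z, h⟩
      have h2 : 0 < (Y - X).card := by omega
      exact ⟨Multiset.card_pos.1 h1, Multiset.card_pos.1 h2⟩
    · have h1 : 0 < (Y - X).card := Multiset.card_pos_iff_exists_mem.2 ⟨z, h⟩
      have h2 : 0 < (X - Y).card := by omega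
      exact ⟨Multiset.card_pos.1 h2, Multiset.card_pos.1 h1⟩
  have hXS' : ∀ x ∈ X - Y, x ∈ S := fun x hx => hXS x (Multiset.mem_of_le (Multiset.sub_le_self X Y) hx)
  have hYS' : ∀ x ∈ Y - X, x ∈ S := fun x hx => hYS x (Multiset.mem_of_le (Multiset.sub_le_self Y X) hx)
  have hSne : S.Nonempty := ⟨_, hXS' _ (Pack_sup_mem _ hne.1)⟩
  set s0 := sInf S with hs0
  have hs0m : s0 ∈ S := Nat.sInf_mem hSne
  have hs0l : ∀ x ∈ S, s0 ≤ x := fun x hx => Nat.sInf_le hx
  set r := 2 * k - (X - Y).card with hr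
  have hpad : ∀ A : Multiset ℕ, A ≠ 0 → (∀ x ∈ A, x ∈ S) →
      (A + Multiset.replicate r s0).sup = A.sup := by
    intro A hA hAS
    rw [Multiset.sup_add]
    apply sup_eq_left.2
    refine Multiset.sup_le.2 fun b hb => ?_
    rw [Multiset.eq_of_mem_replicate hb]
    exact hs0l _ (hAS _ (Pack_sup_mem A hA))
  have hsup : (X - Y + Multiset.replicate r s0).sup ≠ (Y - X + Multiset.replicate r s0).sup := by
    rw [hpad _ hne.1 hXS', hpad _ hne.2 hYS']
    intro h
    have m1 := Pack_sup_mem _ hne.1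
    have m2 := Pack_sup_mem _ hne.2
    rw [← h] at m2
    have k1 := Multiset.count_pos.2 m1
    have k2 := Multiset.count_pos.2 m2
    rw [Multiset.count_sub] at k1 k2
    omega
  have key := hS (X - Y + Multiset.replicate r s0) (Y - X + Multiset.replicate r s0)
    (by rw [Multiset.card_add, Multiset.card_replicate]; omega)
    (by rw [Multiset.card_add, Multiset.card_replicate]; omega)
    (fun x hx => by
      rcases Multiset.mem_add.1 hx with h | h
      · exact hXS' x h
      · rw [Multiset.eq_of_mem_replicate h]; exact hs0m)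
    (fun x hx => by
      rcases Multiset.mem_add.1 hx with h | h
      · exact hYS' x h
      · rw [Multiset.eq_of_mem_replicate h]; exact hs0m)
    hsup z
    (by
      rcases Multiset.mem_add.1 hz with h | h
      · exact Multiset.mem_add.2 (Or.inl (Multiset.mem_add.2 (Or.inl h)))
      · exact Multiset.mem_add.2 (Or.inr (Multiset.mem_add.2 (Or.inl h))))
  rw [Multiset.sum_add, Multiset.sum_add] at key
  rw [← s1, ← s2]
  push_cast at key ⊢
  calc _ ≤ _ := key
    _ = _ := by congr 1; ring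

theorem Pack_pack {ι : Type} (F : Finset ι) (d w : ι → ℝ) (R : ℝ) (hR : 0 ≤ R)
    (hd : ∀ i ∈ F, 0 ≤ d i) (hw : ∀ i ∈ F, w i ≤ R)
    (hsep : ∀ i ∈ F, ∀ i' ∈ F, i ≠ i' → w i' ≤ |d i - d i'|) :
    ∀ D : ℝ, 0 ≤ D → (∀ i ∈ F, d i ≤ D) → ∑ i ∈ F, w i ≤ D + R := by
  classical
  suffices H : ∀ s : Finset ι, s ⊆ F → ∀ D : ℝ, 0 ≤ D → (∀ i ∈ s, d i ≤ D) →
      ∑ i ∈ s, w i ≤ D + R from H F (Finset.Subset.refl _)
  intro s
  induction s using Finset.induction_on_max_value d with
  | empty => intro _ D hD _; simp; linarith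
  | insert a s ha hmax ih =>
    intro hsF D hD hDs
    rw [Finset.sum_insert ha]
    have haF : a ∈ F := hsF (Finset.mem_insert_self _ _)
    have hda : d a ≤ D := hDs a (Finset.mem_insert_self _ _)
    rcases s.eq_empty_or_nonempty with rfl | ⟨b, hb⟩
    · simp only [Finset.sum_empty, add_zero]
      linarith [hw a haF]
    · have hx : ∀ x ∈ s, d x ≤ d a - w a := by
        intro x hx
        have hxF : x ∈ F := hsF (Finset.mem_insert_of_mem hx)
        have hne : x ≠ a := fun h => ha (h ▸ hx)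
        have h1 := hsep x hxF a haF hne
        rw [abs_sub_comm, abs_of_nonneg (sub_nonneg.2 (hmax x hx))] at h1
        linarith
      have h2 := ih (fun x hx => hsF (Finset.mem_insert_of_mem hx)) (d a - w a)
        ((hd b (hsF (Finset.mem_insert_of_mem hb))).trans (hx b hb)) hx
      linarith

theorem taskPack : TaskPack := by
  classical
  intro α k S hα hk hS ι F P Q t L R hL hR hne hF
  refine Pack_pack F (fun i => ((∑ x ∈ P i, x : ℕ) : ℝ) - ((∑ x ∈ Q i, x : ℕ) : ℝ))
    (fun i => (t i : ℝ) ^ α) R hR ?_ ?_ ?_ L hL ?_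
  · intro i hi
    have := (hF i hi).2.2.2.2.1
    have h2 : ((∑ x ∈ Q i, x : ℕ) : ℝ) ≤ ((∑ x ∈ P i, x : ℕ) : ℝ) := by exact_mod_cast this
    linarith
  · intro i hi
    exact (hF i hi).2.2.2.2.2.2
  · intro i hi i' hi' hii
    obtain ⟨hP, hQ, hPQ, hx, -, -, -⟩ := hF i hi
    obtain ⟨hP', hQ', hPQ', hx', -, -, -⟩ := hF i' hi'
    have hcore := Pack_core hS ((P i).val + (Q i').val) ((P i').val + (Q i).val)
      (by rw [Multiset.card_add, Finset.card_val, Finset.card_val, hP, hQ']; omega)
      (by rw [Multiset.card_add, Finset.card_val, Finset.card_val, hP', hQ]; omega)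
      (fun x h => by
        rcases Multiset.mem_add.1 h with h | h
        · exact (hx x (Finset.mem_union_left _ h)).1
        · exact (hx' x (Finset.mem_union_right _ h)).1)
      (fun x h => by
        rcases Multiset.mem_add.1 h with h | h
        · exact (hx' x (Finset.mem_union_left _ h)).1
        · exact (hx x (Finset.mem_union_right _ h)).1)
    have hsum : |(((((P i).val + (Q i').val).sum : ℕ)) : ℝ) -
        ((((P i').val + (Q i).val).sum : ℕ) : ℝ)| =
        |(((∑ x ∈ P i, x : ℕ) : ℝ) - ((∑ x ∈ Q i, x : ℕ) : ℝ)) -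
          (((∑ x ∈ P i', x : ℕ) : ℝ) - ((∑ x ∈ Q i', x : ℕ) : ℝ))| := by
      have hv : ∀ A : Finset ℕ, A.val.sum = ∑ x ∈ A, x := fun A => by
        rw [Finset.sum, Multiset.map_id']
      rw [Multiset.sum_add, Multiset.sum_add, hv, hv, hv, hv]
      congr 1
      push_cast
      ring
    have hz : ∃ z : ℕ, t i' ≤ z ∧ z ∈ ((P i).val + (Q i').val) - ((P i').val + (Q i).val) +
        (((P i').val + (Q i).val) - ((P i).val + (Q i').val)) := by
      have hcnt : ∀ (A : Finset ℕ) (z : ℕ), z ∈ A → A.val.count z = 1 := fun A z hz =>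
        Multiset.count_eq_one_of_mem A.nodup hz
      have hcnt0 : ∀ (A : Finset ℕ) (z : ℕ), z ∉ A → A.val.count z = 0 := fun A z hz =>
        Multiset.count_eq_zero_of_notMem hz
      by_cases hPP : P i = P i'
      · have hQQ : Q i ≠ Q i' := fun h => hne i hi i' hi' hii (by rw [hPP, h])
        obtain ⟨z, hz1, hz2⟩ : ∃ z ∈ Q i', z ∉ Q i := by
          by_contra hcon
          push Not at hcon
          exact hQQ (Finset.eq_of_subset_of_card_le hcon (by rw [hQ, hQ'])).symm
        have hz3 : z ∉ P i' := fun h => (Finset.disjoint_left.1 hPQ') h hz1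
        refine ⟨z, (hx' z (Finset.mem_union_right _ hz1)).2, ?_⟩
        refine Multiset.mem_add.2 (Or.inl (Multiset.count_pos.1 ?_))
        rw [Multiset.count_sub, Multiset.count_add, Multiset.count_add, hcnt (Q i') z hz1,
          hcnt0 (P i') z hz3, hcnt0 (Q i) z hz2]
        omega
      · obtain ⟨z, hz1, hz2⟩ : ∃ z ∈ P i', z ∉ P i := by
          by_contra hcon
          push Not at hcon
          exact hPP (Finset.eq_of_subset_of_card_le hcon (by rw [hP, hP'])).symm
        have hz3 : z ∉ Q i' := fun h => (Finset.disjoint_left.1 hPQ') hz1 h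
        refine ⟨z, (hx' z (Finset.mem_union_left _ hz1)).2, ?_⟩
        refine Multiset.mem_add.2 (Or.inr (Multiset.count_pos.1 ?_))
        rw [Multiset.count_sub, Multiset.count_add, Multiset.count_add, hcnt (P i') z hz1,
          hcnt0 (P i) z hz2, hcnt0 (Q i') z hz3]
        omega
    obtain ⟨z, hz1, hz2⟩ := hz
    have h1 := hcore z hz2
    rw [hsum] at h1
    refine le_trans ?_ h1
    exact Real.rpow_le_rpow (Nat.cast_nonneg _) (by exact_mod_cast hz1) hα
  · intro i hi
    exact (hF i hi).2.2.2.2.2.1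

end Pool.Agent.H894R3.SB
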