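import Pool.Agent.H894R3.SB.Stmts

set_option autoImplicit false
open Filter Finset

namespace Pool.Agent.H894R3.SB

theorem star_card (k : ℕ) (T : Finset ℕ) (A : Finset (Finset ℕ)) (hk : 1 ≤ k)
    (hA : ∀ P ∈ A, P.card = k ∧ P ⊆ T) (x : ℕ) :
    (A.filter (fun P => x ∈ P)).card ≤ T.card ^ (k - 1) := by
  have h1 : (A.filter (fun P => x ∈ P)).card ≤ (T.powersetCard (k - 1)).card := by
    apply Finset.card_le_card_of_injOn (fun P => P.erase x)
    · intro P hP
      have hP' := Finset.mem_filter.mp (Finset.mem_coe.mp hP)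
      obtain ⟨hc, hs⟩ := hA P hP'.1
      rw [Finset.mem_coe, Finset.mem_powersetCard]
      refine ⟨(Finset.erase_subset _ _).trans hs, ?_⟩
      rw [Finset.card_erase_of_mem hP'.2, hc]
    · intro P hP Q hQ hPQ
      have hP' := Finset.mem_filter.mp (Finset.mem_coe.mp hP)
      have hQ' := Finset.mem_filter.mp (Finset.mem_coe.mp hQ)
      have h := congrArg (insert x) hPQ
      simp only at h
      rwa [Finset.insert_erase hP'.2, Finset.insert_erase hQ'.2] at h
  rw [Finset.card_powersetCard] at h1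
  exact h1.trans (Nat.choose_le_pow _ _)

theorem taskPairs : TaskPairs := by
  intro k T A hk hA
  have hsplit : A.card ^ 2 = ((A ×ˢ A).filter (fun p => Disjoint p.1 p.2)).card +
      ((A ×ˢ A).filter (fun p => ¬ Disjoint p.1 p.2)).card := by
    rw [Finset.card_filter_add_card_filter_not, Finset.card_product, pow_two]
  have h1 : ((A ×ˢ A).filter (fun p => Disjoint p.1 p.2)).card ≤ 2 * (FP A).card := by
    have hsub : (A ×ˢ A).filter (fun p => Disjoint p.1 p.2) ⊆ FP A ∪ (FP A).image Prod.swap := by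
      intro p hp
      obtain ⟨hp1, hp2⟩ := Finset.mem_filter.mp hp
      obtain ⟨ha, hb⟩ := Finset.mem_product.mp hp1
      rw [Finset.mem_union, Finset.mem_image]
      rcases le_total (∑ x ∈ p.2, x) (∑ x ∈ p.1, x) with h | h
      · left
        exact Finset.mem_filter.mpr ⟨hp1, hp2, h⟩
      · right
        refine ⟨p.swap, ?_, Prod.swap_swap p⟩
        exact Finset.mem_filter.mpr ⟨Finset.mem_product.mpr ⟨hb, ha⟩, hp2.symm, h⟩
    refine (Finset.card_le_card hsub).trans ((Finset.card_union_le _ _).trans ?_)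
    have := Finset.card_image_le (s := FP A) (f := Prod.swap)
    omega
  have h2 : ((A ×ˢ A).filter (fun p => ¬ Disjoint p.1 p.2)).card ≤ T.card ^ (2 * k - 1) := by
    have hsub : (A ×ˢ A).filter (fun p => ¬ Disjoint p.1 p.2) ⊆
        T.biUnion (fun x => (A.filter (fun P => x ∈ P)) ×ˢ (A.filter (fun P => x ∈ P))) := by
      intro p hp
      obtain ⟨hp1, hp2⟩ := Finset.mem_filter.mp hp
      obtain ⟨ha, hb⟩ := Finset.mem_product.mp hp1
      rw [Finset.not_disjoint_iff] at hp2
      obtain ⟨x, hx1, hx2⟩ := hp2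
      rw [Finset.mem_biUnion]
      refine ⟨x, (hA p.1 ha).2 hx1, ?_⟩
      rw [Finset.mem_product, Finset.mem_filter, Finset.mem_filter]
      exact ⟨⟨ha, hx1⟩, ⟨hb, hx2⟩⟩
    refine (Finset.card_le_card hsub).trans (Finset.card_biUnion_le.trans ?_)
    have h3 : ∀ x ∈ T, ((A.filter (fun P => x ∈ P)) ×ˢ (A.filter (fun P => x ∈ P))).card ≤
        (T.card ^ (k - 1)) ^ 2 := by
      intro x _
      rw [Finset.card_product, ← pow_two]
      exact Nat.pow_le_pow_left (star_card k T A hk hA x) 2
    refine (Finset.sum_le_card_nsmul _ _ _ h3).trans (le_of_eq ?_)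
    rw [smul_eq_mul, ← pow_mul, ← pow_succ']
    congr 1
    omega
  omega

end Pool.Agent.H894R3.SB
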