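import Mathlib

set_option autoImplicit false

/-!
Strong `B_h` sets with `h = 2k` even: the lower density vanishes (project H894-SB, MP_1d2509_nt).
-/

open Filter Finset

namespace Pool.Agent.H894R3.SB

/-- strong `B_h` sets, stated with families -/
def StrongBh (α : ℝ) (h : ℕ) (S : Set ℕ) : Prop :=
  ∀ x y : Fin h → ℕ, (∀ i, x i ∈ S) → (∀ i, y i ∈ S) →
    Finset.univ.sup x ≠ Finset.univ.sup y →
    ∀ i, (x i : ℝ) ^ α ≤ |((∑ j, x j : ℕ) : ℝ) - ((∑ j, y j : ℕ) : ℝ)| ∧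
      (y i : ℝ) ^ α ≤ |((∑ j, x j : ℕ) : ℝ) - ((∑ j, y j : ℕ) : ℝ)|

/-- strong `B_h` sets, stated with multisets -/
def StrongB (α : ℝ) (h : ℕ) (S : Set ℕ) : Prop :=
  ∀ X Y : Multiset ℕ, X.card = h → Y.card = h → (∀ x ∈ X, x ∈ S) → (∀ y ∈ Y, y ∈ S) →
    X.sup ≠ Y.sup → ∀ z ∈ X + Y, (z : ℝ) ^ α ≤ |((X.sum : ℕ) : ℝ) - ((Y.sum : ℕ) : ℝ)|

open Classical in
/-- the elements of `S` in `(a, b]` -/
noncomputable def SI (S : Set ℕ) (a b : ℕ) : Finset ℕ := (Finset.Ioc a b).filter (· ∈ S)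

/-- the number of elements of `S` in `{1, ..., n}` -/
noncomputable def cnt (S : Set ℕ) (n : ℕ) : ℕ := (SI S 0 n).card

/-- the `k`-subsets of `S` with all elements larger than `j ℓ` and sum in `((j - 1) L, j L]`,
`L = k q ℓ` -/
noncomputable def AJ (S : Set ℕ) (k q l j : ℕ) : Finset (Finset ℕ) :=
  ((SI S (j * l) (j * (k * q * l))).powersetCard k).filter
    (fun P => (j - 1) * (k * q * l) < ∑ x ∈ P, x ∧ ∑ x ∈ P, x ≤ j * (k * q * l))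

/-- the ordered disjoint pairs of members of `A`, the one with larger sum first -/
def FP (A : Finset (Finset ℕ)) : Finset (Finset ℕ × Finset ℕ) :=
  (A ×ˢ A).filter (fun p => Disjoint p.1 p.2 ∧ ∑ x ∈ p.2, x ≤ ∑ x ∈ p.1, x)

/-- conversion -/
def TaskConv : Prop := ∀ (α : ℝ) (h : ℕ) (S : Set ℕ), StrongBh α h S → StrongB α h S

/-- separation and packing -/
def TaskPack : Prop := ∀ (α : ℝ) (k : ℕ) (S : Set ℕ), 0 ≤ α → 1 ≤ k → StrongB α (2 * k) S →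
  ∀ (ι : Type) (F : Finset ι) (P Q : ι → Finset ℕ) (t : ι → ℕ) (L R : ℝ), 0 ≤ L → 0 ≤ R →
    (∀ i ∈ F, ∀ i' ∈ F, i ≠ i' → (P i, Q i) ≠ (P i', Q i')) →
    (∀ i ∈ F, (P i).card = k ∧ (Q i).card = k ∧ Disjoint (P i) (Q i) ∧
      (∀ x ∈ P i ∪ Q i, x ∈ S ∧ t i ≤ x) ∧ ∑ x ∈ Q i, x ≤ ∑ x ∈ P i, x ∧
      ((∑ x ∈ P i, x : ℕ) : ℝ) - ((∑ x ∈ Q i, x : ℕ) : ℝ) ≤ L ∧ (t i : ℝ) ^ α ≤ R) →
    ∑ i ∈ F, (t i : ℝ) ^ α ≤ L + R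

/-- counting pairs -/
def TaskPairs : Prop := ∀ (k : ℕ) (T : Finset ℕ) (A : Finset (Finset ℕ)), 1 ≤ k →
  (∀ P ∈ A, P.card = k ∧ P ⊆ T) → A.card ^ 2 ≤ 2 * (FP A).card + T.card ^ (2 * k - 1)

/-- the upper bound -/
def TaskUpper : Prop := TaskPack → TaskPairs → ∀ (α : ℝ) (k : ℕ) (S : Set ℕ), 0 ≤ α → α < 1 →
  1 ≤ k → StrongB α (2 * k) S →
  ∃ C : ℝ, 0 < C ∧ ∀ n : ℕ, (cnt S n : ℝ) ≤ C * (n : ℝ) ^ ((1 - α) / (2 * k))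

/-- the lower bound for the number of `k`-subsets -/
def TaskCount : Prop := ∀ (S : Set ℕ) (k q l J : ℕ), 1 ≤ k → 1 ≤ q → 1 ≤ l → 1 ≤ J →
  (cnt S (J * (q * l)) - cnt S (J * l)).choose k ≤ ∑ j ∈ Finset.Icc 1 J, (AJ S k q l j).card

/-- Cauchy and Abel -/
def TaskAbel : Prop := ∀ (α : ℝ), 0 ≤ α → α < 1 → ∀ (M : ℕ) (D : ℕ → ℝ) (a K : ℝ), 0 < a →
  0 ≤ K → (∀ j, 0 ≤ D j) →
  (∀ J, 1 ≤ J → J ≤ M → a * (J : ℝ) ^ ((1 - α) / 2) ≤ ∑ j ∈ Finset.Icc 1 J, D j) →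
  (∑ j ∈ Finset.Icc 1 M, D j ^ 2 * (j : ℝ) ^ α ≤ K) →
  (a * ((1 - α) / 4)) ^ 2 * (∑ j ∈ Finset.Icc 1 M, 1 / (j : ℝ)) ≤ K

end Pool.Agent.H894R3.SB
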