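import Pool.Agent.H894R3.SB.Stmts

set_option autoImplicit false

open Filter Finset

namespace Pool.Agent.H894R3.SB.Upper583

theorem cnt_zero (S : Set ℕ) : cnt S 0 = 0 := by
  unfold cnt SI
  simp

theorem cnt_step (S : Set ℕ) (n : ℕ) : cnt S n ≤ cnt S (n / 2) + (SI S (n / 2) n).card := by
  classical
  unfold cnt
  refine le_trans (Finset.card_le_card ?_) (Finset.card_union_le _ _)
  intro x hx
  unfold SI at hx ⊢
  rw [Finset.mem_filter, Finset.mem_Ioc] at hx
  rw [Finset.mem_union, Finset.mem_filter, Finset.mem_filter, Finset.mem_Ioc, Finset.mem_Ioc]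
  rcases le_or_gt x (n / 2) with h | h
  · exact Or.inl ⟨⟨hx.1.1, h⟩, hx.2⟩
  · exact Or.inr ⟨⟨h, hx.1.2⟩, hx.2⟩

/-- the number of pairs -/
theorem card_FP (hp : TaskPack) (α : ℝ) (k : ℕ) (S : Set ℕ) (h0 : 0 ≤ α) (h1 : α < 1)
    (hk : 1 ≤ k) (hS : StrongB α (2 * k) S) (n : ℕ) (hn : 1 ≤ n) :
    ((FP ((SI S (n / 2) n).powersetCard k)).card : ℝ) ≤ (2 * k + 1) * (n : ℝ) ^ (1 - α) := by
  classical
  set T := SI S (n / 2) n with hT
  set A := T.powersetCard k with hA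
  have hmem : ∀ P ∈ A, P.card = k ∧ ∀ x ∈ P, x ∈ S ∧ n / 2 + 1 ≤ x ∧ x ≤ n := by
    intro P hP
    rw [hA, Finset.mem_powersetCard] at hP
    refine ⟨hP.2, fun x hx => ?_⟩
    have := hP.1 hx
    rw [hT] at this
    unfold SI at this
    rw [Finset.mem_filter, Finset.mem_Ioc] at this
    exact ⟨this.2, this.1.1, this.1.2⟩
  have key := hp α k S h0 hk hS (Finset ℕ × Finset ℕ) (FP A) Prod.fst Prod.snd
    (fun _ => n / 2 + 1) (k * n) (((n / 2 + 1 : ℕ) : ℝ) ^ α) (by positivity) (by positivity)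
    (fun i _ i' _ hne h => hne (by
      rw [Prod.mk.injEq] at h
      exact Prod.ext h.1 h.2))
    (by
      intro i hi
      unfold FP at hi
      rw [Finset.mem_filter, Finset.mem_product] at hi
      obtain ⟨⟨hi1, hi2⟩, hd, hle⟩ := hi
      have a1 := hmem _ hi1
      have a2 := hmem _ hi2
      refine ⟨a1.1, a2.1, hd, ?_, hle, ?_, le_rfl⟩
      · intro x hx
        rw [Finset.mem_union] at hx
        rcases hx with hx | hx
        · exact ⟨(a1.2 x hx).1, (a1.2 x hx).2.1⟩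
        · exact ⟨(a2.2 x hx).1, (a2.2 x hx).2.1⟩
      · have h2 : ∑ x ∈ i.1, x ≤ k * n := by
          calc ∑ x ∈ i.1, x ≤ ∑ _x ∈ i.1, n := Finset.sum_le_sum fun x hx => (a1.2 x hx).2.2
            _ = k * n := by rw [Finset.sum_const, a1.1, smul_eq_mul]
        have h3 : ((∑ x ∈ i.1, x : ℕ) : ℝ) ≤ k * n := by exact_mod_cast h2
        have h4 : (0 : ℝ) ≤ ((∑ x ∈ i.2, x : ℕ) : ℝ) := by positivity
        linarith)
  rw [Finset.sum_const, nsmul_eq_mul] at key
  set F := ((FP A).card : ℝ) with hF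
  set t := ((n / 2 + 1 : ℕ) : ℝ) ^ α with ht
  have hn0 : (0 : ℝ) < n := by exact_mod_cast hn
  have hn1 : (1 : ℝ) ≤ n := by exact_mod_cast hn
  have ht1 : (n : ℝ) ^ α / 2 ≤ t := by
    have e1 : (n : ℝ) / 2 ≤ ((n / 2 + 1 : ℕ) : ℝ) := by
      have : n ≤ 2 * (n / 2 + 1) := by omega
      have h5 : (n : ℝ) ≤ 2 * ((n / 2 + 1 : ℕ) : ℝ) := by exact_mod_cast this
      linarith
    have e2 : ((n : ℝ) / 2) ^ α ≤ t := Real.rpow_le_rpow (by positivity) e1 h0
    have e3 : ((n : ℝ) / 2) ^ α = (n : ℝ) ^ α / 2 ^ α := Real.div_rpow hn0.le (by norm_num) _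
    have e4 : (2 : ℝ) ^ α ≤ 2 := by
      calc (2 : ℝ) ^ α ≤ 2 ^ (1 : ℝ) := Real.rpow_le_rpow_of_exponent_le (by norm_num) h1.le
        _ = 2 := Real.rpow_one 2
    have e5 : (n : ℝ) ^ α / 2 ≤ (n : ℝ) ^ α / 2 ^ α :=
      div_le_div_of_nonneg_left (by positivity) (by positivity) e4
    linarith
  have htpos : 0 < t := lt_of_lt_of_le (by positivity) ht1
  have hF0 : 0 ≤ F := by positivity
  have hα : (n : ℝ) ^ (1 - α) * (n : ℝ) ^ α = n := by
    rw [← Real.rpow_add hn0]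
    simp
  have hge1 : 1 ≤ (n : ℝ) ^ (1 - α) := Real.one_le_rpow hn1 (by linarith)
  by_contra hcon
  push Not at hcon
  have h6 : 1 < F := by
    have : (0 : ℝ) ≤ k := by positivity
    nlinarith
  have h7 : (F - 1) * t ≤ k * n := by linarith
  have h8 : (F - 1) * ((n : ℝ) ^ α / 2) ≤ k * n :=
    le_trans (mul_le_mul_of_nonneg_left ht1 (by linarith)) h7
  have h9 : 2 * k * (n : ℝ) ^ (1 - α) < F - 1 := by nlinarith
  have hna : 0 < (n : ℝ) ^ α := by positivity
  have h10 : 2 * k * (n : ℝ) ^ (1 - α) * ((n : ℝ) ^ α / 2) < (F - 1) * ((n : ℝ) ^ α / 2) :=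
    mul_lt_mul_of_pos_right h9 (by positivity)
  have h11 : 2 * k * (n : ℝ) ^ (1 - α) * ((n : ℝ) ^ α / 2) = k * n := by
    calc 2 * k * (n : ℝ) ^ (1 - α) * ((n : ℝ) ^ α / 2) =
        k * ((n : ℝ) ^ (1 - α) * (n : ℝ) ^ α) := by ring
      _ = k * n := by rw [hα]
  linarith

/-- the constant -/
noncomputable def B (k : ℕ) : ℝ := 4 ^ (k + 1) * (k.factorial : ℝ) ^ 2 * (2 * k + 1)

theorem one_le_B (k : ℕ) : 1 ≤ B k := by
  unfold B
  have h1 : (1 : ℝ) ≤ 4 ^ (k + 1) := one_le_pow₀ (by norm_num)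
  have h2 : (1 : ℝ) ≤ (k.factorial : ℝ) := by exact_mod_cast Nat.factorial_pos k
  have h3 : (1 : ℝ) ≤ (k.factorial : ℝ) ^ 2 := one_le_pow₀ h2
  have h4 : (1 : ℝ) ≤ 2 * k + 1 := by
    have : (0 : ℝ) ≤ k := by positivity
    linarith
  have h5 : (1 : ℝ) ≤ 4 ^ (k + 1) * (k.factorial : ℝ) ^ 2 := by nlinarith
  nlinarith

theorem card_T (hp : TaskPack) (hq : TaskPairs) (α : ℝ) (k : ℕ) (S : Set ℕ) (h0 : 0 ≤ α)
    (h1 : α < 1) (hk : 1 ≤ k) (hS : StrongB α (2 * k) S) (n : ℕ) (hn : 1 ≤ n) :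
    ((SI S (n / 2) n).card : ℝ) ≤ B k * (n : ℝ) ^ ((1 - α) / (2 * k)) := by
  classical
  set T := SI S (n / 2) n with hT
  set u := T.card with hu
  have hn1 : (1 : ℝ) ≤ n := by exact_mod_cast hn
  have hk0 : (0 : ℝ) < k := by exact_mod_cast hk
  have hβ : 0 ≤ (1 - α) / (2 * (k : ℝ)) := div_nonneg (by linarith) (by positivity)
  have hge : 1 ≤ (n : ℝ) ^ ((1 - α) / (2 * (k : ℝ))) := Real.one_le_rpow hn1 hβ
  have hB := one_le_B k
  set f := (k.factorial : ℝ) with hf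
  have hf1 : 1 ≤ f := by
    rw [hf]
    exact_mod_cast Nat.factorial_pos k
  have hf2 : 1 ≤ f ^ 2 := one_le_pow₀ hf1
  rcases le_or_gt ((u : ℝ)) (2 * 4 ^ k * f ^ 2) with hsmall | hbig
  · have h2 : 2 * 4 ^ k * f ^ 2 ≤ B k := by
      unfold B
      rw [← hf, pow_succ 4 k]
      have h3 : (0 : ℝ) < 4 ^ k * f ^ 2 := by positivity
      have h3' : (0 : ℝ) < 4 ^ k * f ^ 2 * k := by positivity
      nlinarith
    calc (u : ℝ) ≤ B k := hsmall.trans h2
      _ ≤ B k * (n : ℝ) ^ ((1 - α) / (2 * (k : ℝ))) := by nlinarith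
  · have hF := card_FP hp α k S h0 h1 hk hS n hn
    rw [← hT] at hF
    have hP := hq k T (T.powersetCard k) hk (fun P hP => by
      rw [Finset.mem_powersetCard] at hP
      exact ⟨hP.2, hP.1⟩)
    rw [Finset.card_powersetCard, ← hu] at hP
    set N := (FP (T.powersetCard k)).card with hN
    have hPr : ((u.choose k : ℕ) : ℝ) ^ 2 ≤ 2 * (N : ℝ) + (u : ℝ) ^ (2 * k - 1) := by
      exact_mod_cast hP
    -- `u` is large
    have h4k : (k : ℝ) ≤ 4 ^ k := by
      have : k < 4 ^ k := Nat.lt_pow_self (by norm_num)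
      exact_mod_cast this.le
    have hu2 : 2 * (k : ℝ) ≤ u := by
      have : 2 * (k : ℝ) ≤ 2 * 4 ^ k * f ^ 2 := by
        have h5 : (0 : ℝ) < 4 ^ k := by positivity
        nlinarith
      linarith
    have hu2n : 2 * k ≤ u := by exact_mod_cast hu2
    have hdesc : ((u : ℝ) / 2) ^ k ≤ f * (u.choose k : ℕ) := by
      have h6 := Nat.pow_sub_le_descFactorial u k
      rw [Nat.descFactorial_eq_factorial_mul_choose] at h6
      have h7 : (((u + 1 - k : ℕ)) : ℝ) ^ k ≤ f * (u.choose k : ℕ) := by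
        rw [hf]
        exact_mod_cast h6
      refine le_trans ?_ h7
      apply pow_le_pow_left₀ (by positivity)
      have h8 : u ≤ 2 * (u + 1 - k) := by omega
      have h9 : (u : ℝ) ≤ 2 * ((u + 1 - k : ℕ) : ℝ) := by exact_mod_cast h8
      linarith
    have hsq : (u : ℝ) ^ (2 * k) / 4 ^ k ≤ f ^ 2 * ((u.choose k : ℕ) : ℝ) ^ 2 := by
      have h10 := pow_le_pow_left₀ (by positivity) hdesc 2
      have h11 : (((u : ℝ) / 2) ^ k) ^ 2 = (u : ℝ) ^ (2 * k) / 4 ^ k := by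
        rw [← pow_mul, mul_comm k 2, div_pow, pow_mul 2 2 k]
        norm_num
      rw [h11, mul_pow] at h10
      exact h10
    have hu0 : (0 : ℝ) < u := by nlinarith
    have hpow : (u : ℝ) ^ (2 * k) = (u : ℝ) ^ (2 * k - 1) * u := by
      rw [← pow_succ]
      congr 1
      omega
    set v := (u : ℝ) ^ (2 * k - 1) with hv
    have hv0 : 0 < v := by positivity
    -- v * u / 4^k <= f^2 (2 N + v)
    have h12 : v * u / 4 ^ k ≤ f ^ 2 * (2 * N + v) := by
      rw [← hpow]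
      exact hsq.trans (mul_le_mul_of_nonneg_left hPr (by positivity))
    have h4pos : (0 : ℝ) < 4 ^ k := by positivity
    have h13 : v * u ≤ 4 ^ k * (f ^ 2 * (2 * N + v)) := by
      rw [div_le_iff₀ h4pos] at h12
      linarith
    have h14 : v * (2 * 4 ^ k * f ^ 2) ≤ v * u := mul_le_mul_of_nonneg_left hbig.le hv0.le
    have h15 : v * u ≤ 4 ^ (k + 1) * f ^ 2 * N := by
      rw [pow_succ 4 k]
      nlinarith
    have h16 : (u : ℝ) ^ (2 * k) ≤ B k * (n : ℝ) ^ (1 - α) := by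
      rw [hpow]
      refine h15.trans ?_
      unfold B
      rw [← hf]
      have h17 : (0 : ℝ) ≤ 4 ^ (k + 1) * f ^ 2 := by positivity
      calc 4 ^ (k + 1) * f ^ 2 * (N : ℝ) ≤ 4 ^ (k + 1) * f ^ 2 * ((2 * k + 1) * (n : ℝ) ^ (1 - α)) :=
            mul_le_mul_of_nonneg_left hF h17
        _ = _ := by ring
    have h18 : ((n : ℝ) ^ ((1 - α) / (2 * (k : ℝ)))) ^ (2 * k) = (n : ℝ) ^ (1 - α) := by
      rw [← Real.rpow_natCast, ← Real.rpow_mul (by positivity)]
      congr 1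
      push_cast
      field_simp
    have h19 : (u : ℝ) ^ (2 * k) ≤ (B k * (n : ℝ) ^ ((1 - α) / (2 * (k : ℝ)))) ^ (2 * k) := by
      rw [mul_pow, h18]
      refine h16.trans (mul_le_mul_of_nonneg_right ?_ (by positivity))
      exact le_self_pow₀ hB (by omega)
    exact le_of_pow_le_pow_left₀ (by omega) (by positivity) h19

end Pool.Agent.H894R3.SB.Upper583

namespace Pool.Agent.H894R3.SB

open Upper583 in
theorem taskUpper : TaskUpper := by
  intro hp hq α k S h0 h1 hk hS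
  have hk0 : (0 : ℝ) < k := by exact_mod_cast hk
  set β := (1 - α) / (2 * (k : ℝ)) with hβ
  have hβ0 : 0 < β := by
    rw [hβ]
    exact div_pos (by linarith) (by positivity)
  have hB := one_le_B k
  set r := (2 : ℝ) ^ (-β) with hr
  have hr0 : 0 < r := by positivity
  have hr1 : r < 1 := by
    rw [hr]
    exact Real.rpow_lt_one_of_one_lt_of_neg (by norm_num) (by linarith)
  set C := B k / (1 - r) with hC
  have hC0 : 0 < C := div_pos (by linarith) (by linarith)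
  have hCB : B k = C * (1 - r) := by
    rw [hC]
    field_simp [(by linarith : (1 : ℝ) - r ≠ 0)]
  refine ⟨C, hC0, ?_⟩
  intro n
  induction n using Nat.strong_induction_on with
  | _ n ih =>
    rcases Nat.eq_zero_or_pos n with rfl | hn
    · rw [cnt_zero]
      simp only [Nat.cast_zero]
      positivity
    · have h2 := ih (n / 2) (Nat.div_lt_self hn (by norm_num))
      have h3 := cnt_step S n
      have h4 := card_T hp hq α k S h0 h1 hk hS n hn
      rw [← hβ] at h4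
      have h5 : (cnt S n : ℝ) ≤ (cnt S (n / 2) : ℝ) + ((SI S (n / 2) n).card : ℝ) := by
        exact_mod_cast h3
      have h6 : (((n / 2 : ℕ)) : ℝ) ^ β ≤ r * (n : ℝ) ^ β := by
        have e1 : (((n / 2 : ℕ)) : ℝ) ≤ (n : ℝ) / 2 := Nat.cast_div_le
        have e2 := Real.rpow_le_rpow (by positivity) e1 hβ0.le
        rw [Real.div_rpow (by positivity) (by norm_num)] at e2
        refine e2.trans (le_of_eq ?_)
        rw [hr, Real.rpow_neg (by norm_num)]
        field_simp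
      have h7 : C * (((n / 2 : ℕ)) : ℝ) ^ β ≤ C * (r * (n : ℝ) ^ β) :=
        mul_le_mul_of_nonneg_left h6 hC0.le
      calc (cnt S n : ℝ) ≤ C * (r * (n : ℝ) ^ β) + B k * (n : ℝ) ^ β := by linarith
        _ = C * (n : ℝ) ^ β := by rw [hCB]; ring

end Pool.Agent.H894R3.SB
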